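import Mathlib

/-!
# Cocycles which are trivial on a normal subgroup of finite index

`X` is an abelian group with an action `a` of the group `G`, `H` a normal subgroup of finite index `N`.
-/

set_option autoImplicit false
set_option linter.unusedSectionVars false

namespace Pool.Agent.H428.F

open scoped Classical

section

variable {G X : Type} [Group G] [AddCommGroup X] (a : G → X →+ X)
  (ha1 : ∀ x, a 1 x = x) (ham : ∀ g h x, a (g * h) x = a g (a h x))

/-- `c` is a cocycle. -/
def Coc (c : G → X) : Prop := ∀ g h, c (g * h) = c g + a g (c h)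

/-- `c` is a coboundary on the subgroup `H`. -/
def CobOn (H : Subgroup G) (c : G → X) : Prop := ∃ R : X, ∀ g ∈ H, c g = a g R - R

/-- `c` is a coboundary. -/
def Cob (c : G → X) : Prop := ∃ R : X, ∀ g, c g = a g R - R

lemma cobOn_top {c : G → X} : CobOn a ⊤ c ↔ Cob a c :=
  ⟨fun ⟨R, hR⟩ => ⟨R, fun g => hR g trivial⟩, fun ⟨R, hR⟩ => ⟨R, fun g _ => hR g⟩⟩

lemma Coc.nsmul {c : G → X} (h : Coc a c) (n : ℕ) : Coc a (n • c) := by
  intro g h'
  show n • c (g * h') = n • c g + a g (n • c h')
  rw [h, smul_add, map_nsmul]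

lemma Cob.nsmul {c : G → X} (h : Cob a c) (n : ℕ) : Cob a (n • c) := by
  obtain ⟨R, hR⟩ := h
  refine ⟨n • R, fun g => ?_⟩
  show n • c g = _
  rw [hR, smul_sub, map_nsmul]

lemma Cob.zsmul {c : G → X} (h : Cob a c) (n : ℤ) : Cob a (n • c) := by
  obtain ⟨R, hR⟩ := h
  refine ⟨n • R, fun g => ?_⟩
  show n • c g = _
  rw [hR, smul_sub, map_zsmul]

lemma Cob.add {c d : G → X} (h : Cob a c) (h' : Cob a d) : Cob a (c + d) := by
  obtain ⟨R, hR⟩ := h
  obtain ⟨S, hS⟩ := h'
  refine ⟨R + S, fun g => ?_⟩
  show c g + d g = _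
  rw [hR, hS, map_add]
  abel

/-- If `m` and `n` are coprime, and `m c` and `n c` are coboundaries, so is `c`. -/
lemma cob_coprime {c : G → X} {m n : ℕ} (h : Nat.Coprime m n) (h1 : Cob a (m • c))
    (h2 : Cob a (n • c)) : Cob a c := by
  obtain ⟨u, v, huv⟩ := Nat.isCoprime_iff_coprime.2 h
  have h3 := (h1.zsmul a u).add a (h2.zsmul a v)
  have h4 : u • (m • c) + v • (n • c) = c := by
    rw [← natCast_zsmul c m, ← natCast_zsmul c n, smul_smul, smul_smul, ← add_smul, huv, one_smul]
  rwa [h4] at h3

lemma cob_gcd {c : G → X} {m n : ℕ} (h1 : Cob a (m • c)) (h2 : Cob a (n • c)) :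
    Cob a (Nat.gcd m n • c) := by
  have h3 := (h1.zsmul a (Nat.gcdA m n)).add a (h2.zsmul a (Nat.gcdB m n))
  have h4 : Nat.gcdA m n • (m • c) + Nat.gcdB m n • (n • c) = Nat.gcd m n • c := by
    rw [← natCast_zsmul c m, ← natCast_zsmul c n, smul_smul, smul_smul, ← add_smul,
      ← natCast_zsmul c (Nat.gcd m n), Nat.gcd_eq_gcd_ab]
    ring_nf
  rwa [h4] at h3

variable (H : Subgroup G) [hn : H.Normal] [hfi : H.FiniteIndex]

include ha1 ham in
/-- Corestriction and restriction: if `c` is a coboundary on `H`, then `[G : H] c` is a coboundary; and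
`c` is a coboundary if multiplication by `[G : H]` is bijective on the invariants of `H`. -/
theorem cob_of_cobOn {c : G → X} (hc : Coc a c) (hH : CobOn a H c) :
    Cob a (H.index • c) ∧
    ((∀ x : X, (∀ h ∈ H, a h x = x) → H.index • x = 0 → x = 0) →
      (∀ x : X, (∀ h ∈ H, a h x = x) → ∃ y : X, (∀ h ∈ H, a h y = y) ∧ H.index • y = x) →
      Cob a c) := by
  obtain ⟨R, hR⟩ := hH
  -- the cocycle which vanishes on `H`
  let d : G → X := fun g => c g - (a g R - R)
  have hd : ∀ g h, d (g * h) = d g + a g (d h) := by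
    intro g h
    show c (g * h) - (a (g * h) R - R) = c g - (a g R - R) + a g (c h - (a h R - R))
    rw [hc, ham, map_sub, map_sub]
    abel
  have hdH : ∀ h ∈ H, d h = 0 := by
    intro h hh
    show c h - (a h R - R) = 0
    rw [hR h hh, sub_self]
  have hr : ∀ g, ∀ h ∈ H, d (g * h) = d g := by
    intro g h hh
    rw [hd, hdH h hh, map_zero, add_zero]
  have hinv : ∀ g, ∀ h ∈ H, a h (d g) = d g := by
    intro g h hh
    have h1 : d (h * g) = a h (d g) := by rw [hd, hdH h hh, zero_add]
    have h2 : h * g = g * (g⁻¹ * h * g) := by group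
    have h3 : g⁻¹ * h * g ∈ H := by
      have := hn.conj_mem h hh g⁻¹
      rwa [inv_inv] at this
    rw [← h1, h2, hr g _ h3]
  -- the function on the quotient
  let D : G ⧸ H → X := Quotient.lift d (by
    intro x y hxy
    have h1 : x⁻¹ * y ∈ H := QuotientGroup.leftRel_apply.1 hxy
    have h2 : y = x * (x⁻¹ * y) := by group
    rw [h2, hr x _ h1])
  have hD : ∀ g : G, D (g : G ⧸ H) = d g := fun g => rfl
  let _ : Fintype (G ⧸ H) := Fintype.ofFinite _
  have hcard : Fintype.card (G ⧸ H) = H.index := by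
    rw [Subgroup.index, Nat.card_eq_fintype_card]
  set S : X := ∑ q : G ⧸ H, D q with hS
  have hSinv : ∀ h ∈ H, a h S = S := by
    intro h hh
    rw [hS, map_sum]
    refine Finset.sum_congr rfl fun q _ => ?_
    induction q using QuotientGroup.induction_on with
    | H g => exact hinv g h hh
  have hkey : ∀ g, H.index • d g = S - a g S := by
    intro g
    have h1 : S = ∑ q : G ⧸ H, D ((g : G ⧸ H) * q) :=
      (Equiv.sum_comp (Equiv.mulLeft (g : G ⧸ H)) D).symm
    have h2 : ∀ q : G ⧸ H, D ((g : G ⧸ H) * q) = d g + a g (D q) := by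
      intro q
      induction q using QuotientGroup.induction_on with
      | H x => exact hd g x
    have h3 : S = H.index • d g + a g S := by
      conv_lhs => rw [h1]
      rw [Finset.sum_congr rfl fun q _ => h2 q, Finset.sum_add_distrib, Finset.sum_const,
        Finset.card_univ, hcard, hS, map_sum]
    rw [eq_sub_iff_add_eq]
    exact h3.symm
  have hcd : ∀ g, c g = d g + (a g R - R) := fun g => by
    show c g = c g - (a g R - R) + (a g R - R)
    abel
  constructor
  · refine ⟨H.index • R - S, fun g => ?_⟩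
    show H.index • c g = _
    rw [hcd, smul_add, hkey, map_sub, map_nsmul, smul_sub]
    abel
  · intro hu1 hu2
    obtain ⟨S', hS', hSS⟩ := hu2 S hSinv
    refine ⟨R - S', fun g => ?_⟩
    have h1 : d g - (S' - a g S') = 0 := by
      apply hu1
      · intro h hh
        have h3 : a h (a g S') = a g S' := by
          have h4 : h * g = g * (g⁻¹ * h * g) := by group
          have h5 : g⁻¹ * h * g ∈ H := by
            have := hn.conj_mem h hh g⁻¹
            rwa [inv_inv] at this
          rw [← ham, h4, ham, hS' _ h5]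
        rw [map_sub (a h) (d g) (S' - a g S'), map_sub (a h) S' (a g S'), hinv g h hh, hS' h hh, h3]
      · rw [smul_sub, hkey, smul_sub, ← map_nsmul, hSS, sub_self]
    rw [hcd, sub_eq_zero.1 h1, map_sub]
    abel

include ham in
/-- The norm: if `x` is invariant and `x = m y`, `y` invariant under `H`, then `[G : H] x = m z` with an
invariant `z`. -/
theorem exists_norm {m : ℕ} {x y : X} (hx : ∀ g, a g x = x) (hy : ∀ h ∈ H, a h y = y)
    (hxy : m • y = x) : ∃ z : X, (∀ g, a g z = z) ∧ m • z = H.index • x := by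
  let D : G ⧸ H → X := Quotient.lift (fun g => a g y) (by
    intro u v huv
    have h1 : u⁻¹ * v ∈ H := QuotientGroup.leftRel_apply.1 huv
    have h2 : v = u * (u⁻¹ * v) := by group
    show a u y = a v y
    rw [h2, ham, hy _ h1])
  have hD : ∀ g : G, D (g : G ⧸ H) = a g y := fun g => rfl
  let _ : Fintype (G ⧸ H) := Fintype.ofFinite _
  have hcard : Fintype.card (G ⧸ H) = H.index := by
    rw [Subgroup.index, Nat.card_eq_fintype_card]
  refine ⟨∑ q : G ⧸ H, D q, fun g => ?_, ?_⟩
  · rw [map_sum]
    have h1 : ∑ q : G ⧸ H, D q = ∑ q : G ⧸ H, D ((g : G ⧸ H) * q) :=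
      (Equiv.sum_comp (Equiv.mulLeft (g : G ⧸ H)) D).symm
    rw [h1]
    refine Finset.sum_congr rfl fun q _ => ?_
    induction q using QuotientGroup.induction_on with
    | H u => exact (ham g u y).symm
  · rw [Finset.smul_sum]
    have h1 : ∀ q : G ⧸ H, m • D q = x := by
      intro q
      induction q using QuotientGroup.induction_on with
      | H u =>
        show m • a u y = x
        rw [← map_nsmul, hxy, hx]
    rw [Finset.sum_congr rfl fun q _ => h1 q, Finset.sum_const, Finset.card_univ, hcard]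

end

end Pool.Agent.H428.F
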